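import Pool.Agent.QPI.Stmts

/-!
# Squad QPI, row A_MOM
-/

set_option autoImplicit false

namespace Pool.Agent.QPI.H1

open MvPolynomial Pool.Agent.QPI

noncomputable section

theorem a_mom (hLin : LinStmt) (hPhs : PhsStmt) (hMc : McStmt) : MomStmt := by
  intro κ υ _ _ _ _ B hB
  obtain ⟨hadd, hC, hmon⟩ := hLin κ
  obtain ⟨-, hMr, hMt⟩ := hMc κ υ B
  have hz : Ex (0 : MvPolynomial κ ℚ) = 0 := by
    have := hC 0 0
    rwa [mul_zero, zero_mul] at this
  have hsum : ∀ (s : Finset κ) (f : κ → MvPolynomial κ ℚ),
      Ex (∑ a ∈ s, f a) = ∑ a ∈ s, Ex (f a) := by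
    intro s f
    induction s using Finset.induction_on with
    | empty => rw [Finset.sum_empty, Finset.sum_empty, hz]
    | insert a s ha ih => rw [Finset.sum_insert ha, Finset.sum_insert ha, hadd, ih]
  -- the value at `0`
  have hgg0 : gg B 0 = 1 := by
    unfold gg Qp
    have h1 : ∏ v, frm (B v) ^ ((0 : υ →₀ ℕ) v) = (1 : MvPolynomial κ ℚ) := by
      refine Finset.prod_eq_one fun v _ => ?_
      rw [Finsupp.coe_zero, Pi.zero_apply, pow_zero]
    have h2 : ∏ v : υ, ((((0 : υ →₀ ℕ) v).factorial : ℕ) : ℚ) = 1 := by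
      refine Finset.prod_eq_one fun v _ => ?_
      rw [Finsupp.coe_zero, Pi.zero_apply, Nat.factorial_zero, Nat.cast_one]
    have h3 : Ex (1 : MvPolynomial κ ℚ) = 1 := by
      have h4 := hmon 0 1
      have h5 : (monomial (0 : κ →₀ ℕ)) (1 : ℚ) = (1 : MvPolynomial κ ℚ) := rfl
      rw [h5] at h4
      rw [h4, one_mul]
      refine Finset.prod_eq_one fun i _ => ?_
      rw [Finsupp.coe_zero, Pi.zero_apply]
      norm_num [dm]
    rw [h1, h2, h3, div_one]
  -- splitting off one factor
  have key : ∀ (α : υ →₀ ℕ) (v : υ), α v ≠ 0 →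
      (α v : ℚ) * gg B α = ph B (B v) (α - Finsupp.single v 1) := by
    intro α v hv
    obtain ⟨γ, hγ⟩ : ∃ γ, γ = α - Finsupp.single v 1 := ⟨_, rfl⟩
    rw [← hγ]
    have hγv : α v = γ v + 1 := by
      rw [hγ, Finsupp.tsub_apply, Finsupp.single_eq_same]
      omega
    have hγw : ∀ w, w ≠ v → α w = γ w := by
      intro w hw
      rw [hγ, Finsupp.tsub_apply, Finsupp.single_eq_of_ne hw, Nat.sub_zero]
    have h1 : Qp B α = frm (B v) * Qp B γ := by
      unfold Qp
      rw [← Finset.mul_prod_erase Finset.univ (fun v => frm (B v) ^ α v) (Finset.mem_univ v),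
        ← Finset.mul_prod_erase Finset.univ (fun v => frm (B v) ^ γ v) (Finset.mem_univ v), hγv,
        pow_succ', mul_assoc]
      congr 2
      refine Finset.prod_congr rfl fun w hw => ?_
      rw [hγw w (Finset.ne_of_mem_erase hw)]
    have h2 : ∏ w, (((α w).factorial : ℕ) : ℚ) = (α v : ℚ) * ∏ w, (((γ w).factorial : ℕ) : ℚ) := by
      rw [← Finset.mul_prod_erase Finset.univ (fun w => (((α w).factorial : ℕ) : ℚ))
          (Finset.mem_univ v),
        ← Finset.mul_prod_erase Finset.univ (fun w => (((γ w).factorial : ℕ) : ℚ))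
          (Finset.mem_univ v), hγv, Nat.factorial_succ]
      push_cast
      rw [mul_assoc]
      congr 2
      refine Finset.prod_congr rfl fun w hw => ?_
      rw [hγw w (Finset.ne_of_mem_erase hw)]
    have h3 : Ex (Qp B α) = ∑ a, ∑ b, B v a b * Ex (X a * X b * Qp B γ) := by
      rw [h1]
      unfold frm
      rw [Finset.sum_mul, hsum]
      refine Finset.sum_congr rfl fun a _ => ?_
      rw [Finset.sum_mul, hsum]
      refine Finset.sum_congr rfl fun b _ => ?_
      rw [← hC]
      congr 1
      ring
    unfold gg ph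
    rw [h2, h3]
    have h4 : (α v : ℚ) ≠ 0 := by exact_mod_cast hv
    have h5 : ∏ w, (((γ w).factorial : ℕ) : ℚ) ≠ 0 := by
      rw [Finset.prod_ne_zero_iff]
      intro w _
      exact_mod_cast (γ w).factorial_ne_zero
    field_simp
  -- reindexing
  have hre : ∀ (α : υ →₀ ℕ) (v : υ), (if α v = 0 then 0 else
      ph B (B v) (α - Finsupp.single v 1)) =
      ∑ q ∈ Finset.HasAntidiagonal.antidiagonal α, (if q.1 v = 0 then 0 else
        2 ^ (q.1.degree - 1) * Matrix.trace (B v * Mc B (q.1 - Finsupp.single v 1)) *
          gg B q.2) := by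
    intro α v
    by_cases hv : α v = 0
    · rw [if_pos hv]
      symm
      refine Finset.sum_eq_zero fun q hq => ?_
      rw [if_pos]
      have h1 := Finset.HasAntidiagonal.mem_antidiagonal.1 hq
      have h2 := DFunLike.congr_fun h1 v
      rw [Finsupp.add_apply] at h2
      omega
    · rw [if_neg hv, hPhs κ υ B hB (B v)]
      have h1 : ∑ q ∈ Finset.HasAntidiagonal.antidiagonal α, (if q.1 v = 0 then 0 else
        2 ^ (q.1.degree - 1) * Matrix.trace (B v * Mc B (q.1 - Finsupp.single v 1)) *
          gg B q.2) = ∑ q ∈ (Finset.HasAntidiagonal.antidiagonal α).filter (fun q => q.1 v ≠ 0),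
        2 ^ (q.1.degree - 1) * Matrix.trace (B v * Mc B (q.1 - Finsupp.single v 1)) *
          gg B q.2 := by
        rw [Finset.sum_filter]
        refine Finset.sum_congr rfl fun q _ => ?_
        by_cases h : q.1 v = 0
        · rw [if_pos h, if_neg (not_not.2 h)]
        · rw [if_neg h, if_pos h]
      rw [h1]
      have hle : Finsupp.single v 1 ≤ α := by
        rw [Finsupp.single_le_iff]
        omega
      refine Finset.sum_nbij' (fun p => (p.1 + Finsupp.single v 1, p.2))
        (fun q => (q.1 - Finsupp.single v 1, q.2)) ?_ ?_ ?_ ?_ ?_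
      · intro p hp
        have h2 := Finset.HasAntidiagonal.mem_antidiagonal.1 hp
        refine Finset.mem_filter.2 ⟨Finset.HasAntidiagonal.mem_antidiagonal.2 ?_, ?_⟩
        · change p.1 + Finsupp.single v 1 + p.2 = α
          rw [add_right_comm, h2, tsub_add_cancel_of_le hle]
        · change (p.1 + Finsupp.single v 1 : υ →₀ ℕ) v ≠ 0
          rw [Finsupp.add_apply, Finsupp.single_eq_same]
          omega
      · intro q hq
        obtain ⟨hq1, hq2⟩ := Finset.mem_filter.1 hq
        have h2 := Finset.HasAntidiagonal.mem_antidiagonal.1 hq1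
        apply Finset.HasAntidiagonal.mem_antidiagonal.2
        change q.1 - Finsupp.single v 1 + q.2 = α - Finsupp.single v 1
        have h3 : Finsupp.single v 1 ≤ q.1 := by
          rw [Finsupp.single_le_iff]
          omega
        rw [← h2, tsub_add_eq_add_tsub h3]
      · intro p _
        change (p.1 + Finsupp.single v 1 - Finsupp.single v 1, p.2) = p
        rw [add_tsub_cancel_right]
      · intro q hq
        obtain ⟨-, hq2⟩ := Finset.mem_filter.1 hq
        have h3 : Finsupp.single v 1 ≤ q.1 := by
          rw [Finsupp.single_le_iff]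
          omega
        change (q.1 - Finsupp.single v 1 + Finsupp.single v 1, q.2) = q
        rw [tsub_add_cancel_of_le h3]
      · intro p _
        change 2 ^ p.1.degree * Matrix.trace (B v * Mc B p.1) * gg B p.2 =
          2 ^ ((p.1 + Finsupp.single v 1).degree - 1) *
            Matrix.trace (B v * Mc B (p.1 + Finsupp.single v 1 - Finsupp.single v 1)) * gg B p.2
        rw [add_tsub_cancel_right, map_add, Finsupp.degree_single, Nat.add_sub_cancel]
  have main : ∀ n : ℕ, ∀ α : υ →₀ ℕ, α.degree = n → mom (trc B) α = gg B α := by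
    intro n
    induction n using Nat.strong_induction_on with
    | _ n ih =>
      intro α hα
      by_cases h0 : α = 0
      · subst h0
        rw [mom, if_pos rfl, hgg0]
      · rw [mom, if_neg h0]
        have hdeg0 : α.degree ≠ 0 := fun h => h0 ((Finsupp.degree_eq_zero_iff _).1 h)
        have hdeg : (α.degree : ℚ) ≠ 0 := by exact_mod_cast hdeg0
        rw [div_eq_iff hdeg]
        have h1 : (∑ p ∈ (Finset.HasAntidiagonal.antidiagonal α).attach, if h : p.1.1 = 0 then 0
            else 2 ^ (p.1.1.degree - 1) * trc B p.1.1 * mom (trc B) p.1.2) =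
            ∑ p ∈ Finset.HasAntidiagonal.antidiagonal α, (if p.1 = 0 then 0 else
              2 ^ (p.1.degree - 1) * trc B p.1 * gg B p.2) := by
          rw [← Finset.sum_attach (Finset.HasAntidiagonal.antidiagonal α)]
          refine Finset.sum_congr rfl fun p _ => ?_
          by_cases h : p.1.1 = 0
          · rw [dif_pos h, if_pos h]
          · rw [dif_neg h, if_neg h]
            have h2 : p.1.1 + p.1.2 = α := Finset.HasAntidiagonal.mem_antidiagonal.1 p.2
            have h3 : α.degree = (p.1.1).degree + (p.1.2).degree :=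
              (congrArg Finsupp.degree h2).symm.trans (map_add _ _ _)
            have h4 : (p.1.1).degree ≠ 0 := fun h0 => h ((Finsupp.degree_eq_zero_iff _).1 h0)
            rw [ih (p.1.2).degree (by omega) p.1.2 rfl]
        rw [h1]
        have h2 : gg B α * (α.degree : ℚ) = ∑ v, (if α v = 0 then 0 else
            ph B (B v) (α - Finsupp.single v 1)) := by
          have h3 : (α.degree : ℚ) = ∑ v, (α v : ℚ) := by
            rw [Finsupp.degree_eq_sum]
            push_cast
            rfl
          rw [h3, Finset.mul_sum]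
          refine Finset.sum_congr rfl fun v _ => ?_
          by_cases hv : α v = 0
          · rw [if_pos hv, hv, Nat.cast_zero, mul_zero]
          · rw [if_neg hv, ← key α v hv, mul_comm]
        rw [h2, Finset.sum_congr rfl fun v _ => hre α v, Finset.sum_comm]
        refine Finset.sum_congr rfl fun q _ => ?_
        by_cases hq : q.1 = 0
        · rw [if_pos hq]
          symm
          refine Finset.sum_eq_zero fun v _ => ?_
          rw [if_pos (by rw [hq]; rfl)]
        · rw [if_neg hq, hMt, hMr q.1 hq, Matrix.trace_sum, Finset.mul_sum, Finset.sum_mul]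
          refine Finset.sum_congr rfl fun v _ => ?_
          by_cases hv : q.1 v = 0
          · rw [if_pos hv, if_pos hv, Matrix.trace_zero, mul_zero, zero_mul]
          · rw [if_neg hv, if_neg hv]
  exact fun α => main _ α rfl

end

end Pool.Agent.QPI.H1
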